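import Mathlib

set_option autoImplicit false
open Real Complex Metric Set Function
open scoped ComplexConjugate

namespace Pool.Agent.H.MP_a1a577_an

variable {n : ℕ} {κ r : ℝ} {φ : ℂ → ℝ}

/-- affine functions on the circle -/
noncomputable def L (κ : ℝ) (c w : ℂ) : ℝ := max κ (1 - 2 * (conj c * w).re)

/-- weighted averages -/
noncomputable def Φ (κ : ℝ) (φ : ℂ → ℝ) (c : Fin (n + 1) → ℂ) : ℝ :=
  circleAverage (fun w => φ w * ∏ j, (L κ (c j) w)⁻¹) 0 1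

theorem L_pos (h : 0 < κ) (c w : ℂ) : 0 < L κ c w := h.trans_le (le_max_left _ _)

theorem L_cont {X : Type} [TopologicalSpace X] (h : 0 < κ) {c w : X → ℂ} (hc : Continuous c)
    (hw : Continuous w) : Continuous fun x => (L κ (c x) (w x))⁻¹ :=
  Continuous.inv₀ (by unfold L; fun_prop) fun _ => (L_pos h _ _).ne'

theorem ci {E : Type} [NormedAddCommGroup E] {f : ℂ → E} (h : Continuous f) :
    CircleIntegrable f 0 1 := h.continuousOn.circleIntegrable zero_le_one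

theorem int_cont (h : 0 < κ) (hφ : Continuous φ) (s : Finset (Fin (n + 1))) (c : Fin (n + 1) → ℂ) :
    Continuous fun w => φ w * ∏ j ∈ s, (L κ (c j) w)⁻¹ :=
  hφ.mul (continuous_finsetProd _ fun _ _ => L_cont h continuous_const continuous_id)

theorem Φ_cont (h : 0 < κ) (hφ : Continuous φ) : Continuous (Φ (n := n) κ φ) := by
  unfold Φ circleAverage
  refine Continuous.fun_const_smul ?_ _
  refine intervalIntegral.continuous_parametric_intervalIntegral_of_continuous' ?_ _ _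
  exact (hφ.comp (by fun_prop)).mul (continuous_finsetProd _ fun j _ =>
    L_cont h (by fun_prop) (by fun_prop))

theorem Φ_pos (h : 0 < κ) (c : Fin (n + 1) → ℂ) : 0 < Φ κ (fun _ => 1) c := by
  unfold Φ circleAverage
  refine smul_pos (by positivity) (intervalIntegral.intervalIntegral_pos_of_pos
    (ci (int_cont h continuous_const _ c)) (fun x => ?_) (by positivity))
  exact mul_pos one_pos (Finset.prod_pos fun j _ => inv_pos.2 (L_pos h _ _))

theorem Φ_sub (h : 0 < κ) (hφ : Continuous φ) (m : ℝ) (c : Fin (n + 1) → ℂ) :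
    Φ κ (fun w => φ w - m) c = Φ κ φ c - m * Φ κ (fun _ => 1) c := by
  unfold Φ
  rw [← smul_eq_mul, ← circleAverage_fun_smul, ← circleAverage_fun_sub (ci (int_cont h hφ _ c))
    (ci ((int_cont h continuous_const _ c).fun_const_smul m))]
  congr 1
  funext w
  simp only [smul_eq_mul]
  ring

theorem L_eq {ρ : ℝ} {c w : ℂ} (hc : ‖c‖ ≤ ρ) (hw : w ∈ sphere (0 : ℂ) |1|) :
    L (1 - 2 * ρ) c w = 1 - 2 * (conj c * w).re := by
  have := re_le_norm (conj c * w)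
  rw [norm_mul, show ‖w‖ = 1 by simpa using hw, norm_conj] at this
  exact max_eq_right (by linarith)

theorem Φ_mid {ρ : ℝ} (h : 0 < 1 - 2 * ρ) (hφ : Continuous φ) {c : Fin (n + 1) → ℂ}
    (hc : ∀ j, ‖c j‖ ≤ ρ) {i j : Fin (n + 1)} (hij : i ≠ j) {m : ℂ} (hm : ‖m‖ ≤ ρ)
    (e : m = (c i + c j) / 2) :
    2 * Φ (1 - 2 * ρ) φ c = Φ (1 - 2 * ρ) φ (update c j m) + Φ (1 - 2 * ρ) φ (update c i m) := by
  unfold Φ
  rw [← smul_eq_mul, ← circleAverage_fun_smul, ← circleAverage_fun_add (ci (int_cont h hφ _ _))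
    (ci (int_cont h hφ _ _))]
  refine circleAverage_congr_sphere fun w hw => ?_
  have p : ∀ d : Fin (n + 1) → ℂ, (∀ k, k ≠ i → k ≠ j → d k = c k) →
      ∏ k, (L (1 - 2 * ρ) (d k) w)⁻¹ = (L (1 - 2 * ρ) (d i) w)⁻¹ * ((L (1 - 2 * ρ) (d j) w)⁻¹ *
        ∏ k ∈ (Finset.univ.erase i).erase j, (L (1 - 2 * ρ) (c k) w)⁻¹) := fun d hd => by
    rw [← Finset.mul_prod_erase _ _ (Finset.mem_univ i), ← Finset.mul_prod_erase _ _
      (Finset.mem_erase.2 ⟨hij.symm, Finset.mem_univ j⟩)]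
    congr 2
    exact Finset.prod_congr rfl fun k hk => by
      rw [hd k (Finset.mem_erase.1 (Finset.mem_erase.1 hk).2).1 (Finset.mem_erase.1 hk).1]
  have a : L (1 - 2 * ρ) m w = (L (1 - 2 * ρ) (c i) w + L (1 - 2 * ρ) (c j) w) / 2 := by
    rw [L_eq hm hw, L_eq (hc i) hw, L_eq (hc j) hw, e]
    simp [div_ofNat_re, div_ofNat_im, map_ofNat]
    ring
  simp only [smul_eq_mul]
  rw [p c fun _ _ _ => rfl, p (update c j m) fun k _ h => update_of_ne h _ _,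
    p (update c i m) fun k h _ => update_of_ne h _ _, update_self, update_self,
    update_of_ne hij, update_of_ne hij.symm, a]
  have := L_pos h (c i) w
  have := L_pos h (c j) w
  field_simp
  ring

/-- passage to the projective model -/
noncomputable def k (b : ℂ) : ℂ := b / (1 + ‖b‖ ^ 2 : ℝ)

theorem k_norm (b : ℂ) : ‖k b‖ = ‖b‖ / (1 + ‖b‖ ^ 2) := by
  rw [k, norm_div, norm_real, Real.norm_of_nonneg (by positivity)]

theorem k_le (h1 : r < 1) {b : ℂ} (hb : ‖b‖ ≤ r) : ‖k b‖ ≤ r / (1 + r ^ 2) := by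
  have := norm_nonneg b
  rw [k_norm, div_le_div_iff₀ (by positivity) (by positivity)]
  nlinarith [mul_nonneg (sub_nonneg.2 hb) (show 0 ≤ 1 - ‖b‖ * r by nlinarith)]

theorem k_surj (h0 : 0 < r) {c : ℂ} (hc : ‖c‖ ≤ r / (1 + r ^ 2)) : ∃ b, ‖b‖ ≤ r ∧ k b = c := by
  obtain ⟨s, hs, e⟩ := intermediate_value_Icc (f := fun s : ℝ => s / (1 + s ^ 2)) h0.le
    (Continuous.continuousOn (by fun_prop (disch := intro; positivity)))
    (show ‖c‖ ∈ _ from ⟨by simp, hc⟩)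
  have p : 0 < 1 + s ^ 2 := by positivity
  have : ‖((1 + s ^ 2 : ℝ) : ℂ) * c‖ = s := by
    rw [norm_mul, norm_real, Real.norm_of_nonneg p.le, ← e]
    field_simp
  refine ⟨_, this.trans_le hs.2, ?_⟩
  rw [k, this, mul_div_cancel_left₀ _ (by exact_mod_cast p.ne')]

theorem L_k (h1 : r < 1) {b w : ℂ} (hb : ‖b‖ ≤ r) (hw : w ∈ sphere (0 : ℂ) |1|) :
    (L (1 - 2 * (r / (1 + r ^ 2))) (k b) w)⁻¹ = (1 + ‖b‖ ^ 2) * (‖w - b‖ ^ 2)⁻¹ := by
  have e : ‖w - b‖ ^ 2 = (1 + ‖b‖ ^ 2) * L (1 - 2 * (r / (1 + r ^ 2))) (k b) w := by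
    rw [L_eq (k_le h1 hb) hw, k, map_div₀, conj_ofReal, div_mul_eq_mul_div, div_ofReal_re,
      Complex.sq_norm (w - b), normSq_sub, normSq_eq_norm_sq, normSq_eq_norm_sq,
      show ‖w‖ = 1 by simpa using hw, mul_comm w]
    field_simp
  rw [e, mul_inv, mul_inv_cancel_left₀ (by positivity)]

theorem Φ_k (h1 : r < 1) {b : Fin (n + 1) → ℂ} (hb : ∀ j, ‖b j‖ ≤ r) :
    Φ (1 - 2 * (r / (1 + r ^ 2))) φ (fun j => k (b j)) = (∏ j, (1 + ‖b j‖ ^ 2)) *
      circleAverage (fun w => φ w * ∏ j, (‖w - b j‖ ^ 2)⁻¹) 0 1 := by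
  rw [← smul_eq_mul (∏ j, _), Φ, ← circleAverage_fun_smul]
  refine circleAverage_congr_sphere fun w hw => ?_
  simp only [L_k h1 (hb _) hw, Finset.prod_mul_distrib, smul_eq_mul]
  ring

theorem harm (h0 : 0 < r) (h1 : r < 1) {g : ℂ → ℝ} (hg : Continuous g) {b : ℂ} (hb : ‖b‖ ≤ r)
    (h : circleAverage (fun w => g w * (L (1 - 2 * (r / (1 + r ^ 2))) (k b) w)⁻¹) 0 1 ≤ 0) :
    ∃ e, ‖e‖ = r ∧
      circleAverage (fun w => g w * (L (1 - 2 * (r / (1 + r ^ 2))) (k e) w)⁻¹) 0 1 ≤ 0 := by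
  obtain ⟨H, hH⟩ : ∃ H : ℂ → ℂ, H = fun b =>
    circleAverage (fun w => herglotzRieszKernel 0 b w • (g w : ℂ)) 0 1 := ⟨_, rfl⟩
  have d : DifferentiableOn ℂ H (ball 0 1) := hH ▸
    differentiableOn_circleAverage_herglotzRieszKernel_smul (ci (by fun_prop))
  have e : ∀ b : ℂ, ‖b‖ ≤ r → (circleAverage (fun w => g w *
      (L (1 - 2 * (r / (1 + r ^ 2))) (k b) w)⁻¹) 0 1 ≤ 0 ↔ (H b).re ≤ 0) := fun b hb => by
    have p : 0 < (1 - ‖b‖ ^ 2) / (1 + ‖b‖ ^ 2) :=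
      div_pos (by nlinarith [norm_nonneg b]) (by positivity)
    have : (H b).re = (1 - ‖b‖ ^ 2) / (1 + ‖b‖ ^ 2) * circleAverage (fun w => g w *
        (L (1 - 2 * (r / (1 + r ^ 2))) (k b) w)⁻¹) 0 1 := by
      rw [hH, re_circleAverage_herglotzRieszKernel_smul (ci hg) (by simpa using hb.trans_lt h1),
        ← poissonKernel_eq_re_herglotzRieszKernel, ← smul_eq_mul, ← circleAverage_fun_smul]
      refine circleAverage_congr_sphere fun w hw => ?_
      simp only [Pi.smul_apply', smul_eq_mul, poissonKernel_def, sub_zero, L_k h1 hb hw,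
        show ‖w‖ = 1 by simpa using hw]
      field_simp
    rw [this]
    exact ⟨fun h => mul_nonpos_of_nonneg_of_nonpos p.le h, fun h => by_contra fun h' =>
      (mul_pos p (not_le.1 h')).not_ge h⟩
  obtain ⟨z, hz, m⟩ := exists_mem_frontier_isMaxOn_norm (f := fun b => Complex.exp (-H b))
    (U := ball 0 r) isBounded_ball (nonempty_ball.2 h0) (DifferentiableOn.diffContOnCl (by
      rw [closure_ball _ h0.ne']
      exact (d.mono (closedBall_subset_ball h1)).neg.cexp))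
  rw [frontier_ball _ h0.ne'] at hz
  have z1 : ‖z‖ = r := by simpa using hz
  have := m (show b ∈ _ by rw [closure_ball _ h0.ne']; simpa using hb)
  simp only [mem_ofPred_eq, comp, norm_exp, exp_le_exp, neg_re] at this
  exact ⟨z, z1, (e z z1.le).2 (by linarith [(e b hb).1 h])⟩

theorem key (h0 : 0 < r) (h1 : r < 1) (hφ : Continuous φ)
    (h : ∀ e : ℂ, ‖e‖ = r → 0 ≤ circleAverage (fun w => φ w * ∏ _j : Fin (n + 1), (‖w - e‖ ^ 2)⁻¹) 0 1)
    {b : Fin (n + 1) → ℂ} (hb : ∀ j, ‖b j‖ ≤ r) :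
    0 ≤ circleAverage (fun w => φ w * ∏ j, (‖w - b j‖ ^ 2)⁻¹) 0 1 := by
  by_contra hn
  have Φk := fun φ (b : Fin (n + 1) → ℂ) => Φ_k (φ := φ) (b := b) h1
  have kle := fun b => k_le (b := b) h1
  have ks := fun c => k_surj (c := c) h0
  have hm := fun g hg b => harm (g := g) (b := b) h0 h1 hg
  have ρ1 : 0 < 1 - 2 * (r / (1 + r ^ 2)) := by
    rw [sub_pos, ← mul_div_assoc, div_lt_one (by positivity)]; nlinarith
  generalize r / (1 + r ^ 2) = ρ at *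
  obtain ⟨X, hX⟩ : ∃ X : Set (Fin (n + 1) → ℂ), X = Set.pi univ fun _ => closedBall 0 ρ := ⟨_, rfl⟩
  have cX : IsCompact X := hX ▸ isCompact_univ_pi fun _ => isCompact_closedBall _ _
  have mX : ∀ c, c ∈ X ↔ ∀ j, ‖c j‖ ≤ ρ := by simp [hX]
  have uX : ∀ c ∈ X, ∀ j m, ‖m‖ ≤ ρ → update c j m ∈ X := fun c hc j m hm =>
    (mX _).2 (forall_update_iff c (fun _ z => ‖z‖ ≤ ρ) |>.2 ⟨hm, fun _ _ => (mX c).1 hc _⟩)
  have bX : (fun j => k (b j)) ∈ X := (mX _).2 fun j => kle _ (hb j)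
  have P := Φ_pos (n := n) ρ1
  obtain ⟨c, hc, mc⟩ := cX.exists_isMinOn ⟨_, bX⟩ (f := fun c => Φ (1 - 2 * ρ) φ c /
    Φ (1 - 2 * ρ) (fun _ => 1) c) ((Φ_cont ρ1 hφ).div (Φ_cont ρ1 continuous_const)
    fun c => (P c).ne').continuousOn
  obtain ⟨m, em⟩ : ∃ m, m = Φ (1 - 2 * ρ) φ c / Φ (1 - 2 * ρ) (fun _ => 1) c := ⟨_, rfl⟩
  have m0 : m < 0 := em ▸ lt_of_le_of_lt (mc bX) (div_neg_of_neg_of_pos (by
    rw [Φk φ b hb]; exact mul_neg_of_pos_of_neg (by positivity) (not_le.1 hn)) (P _))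
  obtain ⟨ψ, eψ⟩ : ∃ ψ : ℂ → ℝ, ψ = fun w => φ w - m := ⟨_, rfl⟩
  have hψ : Continuous ψ := eψ ▸ hφ.sub continuous_const
  have nn : ∀ d ∈ X, 0 ≤ Φ (1 - 2 * ρ) ψ d := fun d hd => by
    rw [eψ, Φ_sub ρ1 hφ, sub_nonneg, ← le_div_iff₀ (P d), em]
    exact mc hd
  have up : ∀ z, Φ (1 - 2 * ρ) ψ (update c 0 z) = circleAverage (fun w => (ψ w *
      ∏ j ∈ Finset.univ.erase 0, (L (1 - 2 * ρ) (c j) w)⁻¹) * (L (1 - 2 * ρ) z w)⁻¹) 0 1 := fun z => by
    unfold Φ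
    congr 1
    funext w
    rw [← Finset.prod_erase_mul _ _ (Finset.mem_univ 0), update_self, mul_assoc]
    congr 2
    exact Finset.prod_congr rfl fun j hj => by rw [update_of_ne (Finset.mem_erase.1 hj).1]
  obtain ⟨b0, b1, b2⟩ := ks _ ((mX c).1 hc 0)
  obtain ⟨e, e1, e2⟩ := hm _ (int_cont ρ1 hψ _ c) b0 b1 (by
    rw [← up, b2, update_eq_self, eψ, Φ_sub ρ1 hφ, em, div_mul_cancel₀ _ (P c).ne', sub_self])
  rw [← up] at e2
  obtain ⟨d, ⟨d1, d2, d3⟩, md⟩ := (cX.inter_right (t := {d | Φ (1 - 2 * ρ) ψ d ≤ 0} ∩ {d | d 0 = k e})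
    ((isClosed_le (Φ_cont ρ1 hψ) continuous_const).inter (isClosed_eq (continuous_apply 0)
    continuous_const))).exists_isMinOn ⟨_, uX c hc 0 _ (kle e e1.le), e2, update_self _ _ _⟩
    (f := fun d => ∑ j, ‖d j - k e‖) (by fun_prop)
  have d2 : Φ (1 - 2 * ρ) ψ d ≤ 0 := d2
  have d3 : d 0 = k e := d3
  have : d = fun _ => k e := by
    funext j
    by_contra hj
    have j0 : 0 ≠ j := fun h => hj (h ▸ d3)
    have a1 : ‖(d 0 + d j) / 2‖ ≤ ρ := by
      rw [norm_div, Complex.norm_two]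
      linarith [norm_add_le (d 0) (d j), (mX d).1 d1 0, (mX d).1 d1 j]
    have a2 := Φ_mid ρ1 hψ ((mX d).1 d1) j0 a1 rfl
    refine (isMinOn_iff.1 md (update d j ((d 0 + d j) / 2)) ⟨uX d d1 _ _ a1, ?_, ?_⟩).not_gt ?_
    · exact show Φ _ _ _ ≤ 0 by linarith [nn _ (uX d d1 0 _ a1)]
    · exact (update_of_ne j0 _ _).trans d3
    have a3 : ‖update d j ((d 0 + d j) / 2) j - k e‖ < ‖d j - k e‖ := by
      rw [update_self, d3, show (k e + d j) / 2 - k e = (d j - k e) / 2 by ring, norm_div,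
        Complex.norm_two]
      exact half_lt_self (norm_pos_iff.2 (sub_ne_zero.2 hj))
    refine Finset.sum_lt_sum (fun i _ => ?_) ⟨j, Finset.mem_univ j, a3⟩
    by_cases h : i = j
    · exact h ▸ a3.le
    · rw [update_of_ne h]
  rw [this, eψ, Φ_sub ρ1 hφ, Φk φ (fun _ => e) fun _ => e1.le] at d2
  nlinarith [mul_nonneg (show 0 ≤ ∏ _j : Fin (n + 1), (1 + ‖e‖ ^ 2) by positivity) (h e e1),
    mul_pos (neg_pos.2 m0) (P fun _ => k e)]

end Pool.Agent.H.MP_a1a577_an
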