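import Pool.Agent.H.MP_a1a577_an.A

set_option autoImplicit false
open Real Complex Metric Set Function Polynomial Finset
open scoped ComplexConjugate InnerProductSpace

namespace Pool.Agent.H.MP_a1a577_an

theorem exU {A : Type} [Ring A] [Algebra ℂ A] (T : A) (n : ℕ) : ∀ a : Fin n → ℂ, ∃ U : ℕ → A,
    ∀ w : ℂ, (1 - w • T) * ∑ k ∈ range n, w ^ k • U k =
      (∏ j, (1 - a j * w)) • (1 : A) - w ^ n • aeval T (∏ j, (X - C (a j))) := by
  induction n with
  | zero => exact fun a => ⟨0, by simp⟩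
  | succ n ih =>
    intro a
    obtain ⟨U, hU⟩ := ih fun j => a j.succ
    obtain ⟨Q, hQ⟩ : ∃ Q, Q = aeval T (∏ j : Fin n, (X - C (a j.succ))) := ⟨_, rfl⟩
    refine ⟨fun k => (if k < n then U k else Q) - a 0 • (if k = 0 then 0 else U (k - 1)),
      fun w => ?_⟩
    have h := hU w
    have e1 : ∑ k ∈ range (n + 1), w ^ k • (if k < n then U k else Q) =
        ∑ k ∈ range n, w ^ k • U k + w ^ n • Q := by
      rw [sum_range_succ, if_neg (lt_irrefl n)]
      congr 1
      exact sum_congr rfl fun k hk => by rw [if_pos (mem_range.1 hk)]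
    have e2 : ∑ k ∈ range (n + 1), w ^ k • a 0 • (if k = 0 then 0 else U (k - 1)) =
        (a 0 * w) • ∑ k ∈ range n, w ^ k • U k := by
      rw [sum_range_succ', smul_sum]
      simp only [Nat.add_eq_zero_iff, one_ne_zero, and_false, if_false, if_true, smul_zero, add_zero,
        Nat.add_sub_cancel, smul_smul]
      exact sum_congr rfl fun k _ => by congr 1; ring
    simp only [smul_sub, sum_sub_distrib, e1, e2, Fin.prod_univ_succ, map_mul, ← hQ, map_sub,
      aeval_X, aeval_C, Algebra.algebraMap_eq_smul_one] at h ⊢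
    generalize ∑ k ∈ range n, w ^ k • U k = S at *
    simp only [sub_mul, mul_sub, mul_add, one_mul, smul_mul_assoc, mul_smul_comm] at h ⊢
    linear_combination (norm := module) (1 - a 0 * w) • h

theorem avg_conj {h : ℂ → ℂ} (hh : DifferentiableOn ℂ h (closedBall 0 1)) :
    circleAverage (fun w => conj (h w)) 0 1 = conj (h 0) := by
  have := (conjCLE : ℂ →L[ℝ] ℂ).circleAverage_comp_comm (f := h) (c := 0) (R := 1)
    ((hh.continuousOn.mono sphere_subset_closedBall).circleIntegrable zero_le_one)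
  rw [DiffContOnCl.circleAverage (f := h) (DifferentiableOn.diffContOnCl (by
    rwa [abs_one, closure_ball _ one_ne_zero]))] at this
  exact this

variable {E F : Type} [NormedAddCommGroup E] [InnerProductSpace ℂ E] [CompleteSpace E]
  [NormedAddCommGroup F] [InnerProductSpace ℂ F]

theorem res {T : E →L[ℂ] E} {R : ℂ → E} {x : E} (hR : DifferentiableOn ℂ R (closedBall 0 1))
    (h : ∀ w ∈ closedBall (0 : ℂ) 1, R w = x + w • T (R w)) (m : ℕ) (y : E) :
    circleAverage (fun w => conj w ^ m * ⟪y, R w⟫_ℂ) 0 1 = ⟪y, (T ^ m) x⟫_ℂ := by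
  have c : ContinuousOn R (sphere 0 1) := hR.continuousOn.mono sphere_subset_closedBall
  induction m generalizing y with
  | zero =>
    simp only [pow_zero, one_mul]
    rw [DiffContOnCl.circleAverage (DifferentiableOn.diffContOnCl (by
      rw [abs_one, closure_ball _ one_ne_zero]
      exact (innerSL ℂ y).differentiable.comp_differentiableOn hR)), h 0 (by simp)]
    simp
  | succ m ih =>
    have a1 := avg_conj (h := fun w => w ^ (m + 1) * ⟪x, y⟫_ℂ) (by fun_prop)
    rw [zero_pow (Nat.succ_ne_zero m), zero_mul, map_zero] at a1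
    rw [pow_succ' T, mul_apply_eq_comp, ← ContinuousLinearMap.adjoint_inner_left, ← ih,
      ← (add_eq_left (a := circleAverage (fun w => conj w ^ m * _) 0 1)).2 a1, ← circleAverage_fun_add
      (ContinuousOn.circleIntegrable zero_le_one (by fun_prop)) (ci (by fun_prop))]
    refine circleAverage_congr_sphere fun w hw => ?_
    have w1 : ‖w‖ = 1 := by simpa using hw
    have : conj w * w = 1 := by rw [conj_mul', w1]; simp
    simp only [ContinuousLinearMap.adjoint_inner_left, map_mul, map_pow, inner_conj_symm]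
    nth_rw 1 [h w (by simp [w1])]
    rw [inner_add_right, inner_smul_right]
    linear_combination conj w ^ m * ⟪y, T (R w)⟫_ℂ * this

theorem rep {T : E →L[ℂ] E} {D : E →L[ℂ] F}
    (hD : ∀ x y, ⟪D y, D x⟫_ℂ = ⟪y, x⟫_ℂ - ⟪T y, T x⟫_ℂ) {R R' : ℂ → E} {x y : E}
    (hR : DifferentiableOn ℂ R (closedBall 0 1)) (hR' : DifferentiableOn ℂ R' (closedBall 0 1))
    (h : ∀ w ∈ closedBall (0 : ℂ) 1, R w = x + w • T (R w))
    (h' : ∀ w ∈ closedBall (0 : ℂ) 1, R' w = y + w • T (R' w)) (m : ℕ) :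
    circleAverage (fun w => conj w ^ m * ⟪D (R' w), D (R w)⟫_ℂ) 0 1 = ⟪y, (T ^ m) x⟫_ℂ := by
  have c : ContinuousOn R (sphere 0 1) := hR.continuousOn.mono sphere_subset_closedBall
  have c' : ContinuousOn R' (sphere 0 1) := hR'.continuousOn.mono sphere_subset_closedBall
  have a1 := avg_conj (h := fun w => w ^ m * ⟪x, R' w - y⟫_ℂ) (DifferentiableOn.mul (by fun_prop)
    ((innerSL ℂ x).differentiable.comp_differentiableOn (hR'.sub_const y)))
  rw [h' 0 (by simp)] at a1
  simp only [zero_smul, add_sub_cancel_left, inner_zero_right, mul_zero, map_zero] at a1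
  rw [← res hR h, ← (add_eq_left (a := circleAverage (fun w => conj w ^ m * ⟪y, R w⟫_ℂ) 0 1)).2 a1,
    ← circleAverage_fun_add (ContinuousOn.circleIntegrable zero_le_one (by fun_prop))
      (ContinuousOn.circleIntegrable zero_le_one (by fun_prop))]
  refine circleAverage_congr_sphere fun w hw => ?_
  have w1 : ‖w‖ = 1 := by simpa using hw
  have : conj w * w = 1 := by rw [conj_mul', w1]; simp
  have b := congrArg₂ (inner ℂ) (sub_eq_iff_eq_add'.2 (h' w (by simp [w1])))
    (sub_eq_iff_eq_add'.2 (h w (by simp [w1])))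
  simp only [hD, map_mul, map_pow, map_sub, inner_conj_symm, inner_sub_left, inner_sub_right,
    inner_smul_left, inner_smul_right] at b ⊢
  linear_combination conj w ^ m * b + conj w ^ m * ⟪T (R' w), T (R w)⟫_ℂ * this

/-- the test function on the circle -/
noncomputable def φ (l : ℝ) (c : ℕ → ℂ) (N n : ℕ) (α β : ℕ → F) (w : ℂ) : ℝ :=
  (l ^ 2 * ⟪∑ k ∈ range n, w ^ k • α k, ∑ k ∈ range n, w ^ k • α k⟫_ℂ +
    ⟪∑ k ∈ range n, w ^ k • β k, ∑ k ∈ range n, w ^ k • β k⟫_ℂ - 2 * ∑ m ∈ range N, c m *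
    (conj w ^ m * ⟪∑ k ∈ range n, w ^ k • β k, ∑ k ∈ range n, w ^ k • α k⟫_ℂ)).re

theorem φ_cont (l : ℝ) (c : ℕ → ℂ) (N n : ℕ) (α β : ℕ → F) : Continuous (φ l c N n α β) := by
  unfold φ
  fun_prop

theorem main {T : E →L[ℂ] E} {D : E →L[ℂ] F}
    (hD : ∀ x y, ⟪D y, D x⟫_ℂ = ⟪y, x⟫_ℂ - ⟪T y, T x⟫_ℂ) {n : ℕ} {a : Fin n → ℂ}
    (ha : ∀ j, ‖a j‖ < 1) (hT : aeval T (∏ j, (X - C (a j))) = 0) :
    ∃ U : ℕ → E →L[ℂ] E, ∀ l c N x y, circleAverage (fun w => φ l c N n (fun k => D (U k x))
      (fun k => D (U k y)) w * ∏ j, (‖w - conj (a j)‖ ^ 2)⁻¹) 0 1 =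
      l ^ 2 * ‖x‖ ^ 2 + ‖y‖ ^ 2 - 2 * (⟪y, (∑ m ∈ range N, c m • T ^ m) x⟫_ℂ).re := by
  obtain ⟨U, hU⟩ := exU T n a
  refine ⟨U, fun l c N x y => ?_⟩
  have p : ∀ w ∈ closedBall (0 : ℂ) 1, ∏ j, (1 - a j * w) ≠ 0 := fun w hw =>
    prod_ne_zero_iff.2 fun j _ h => by
      have := congrArg norm (sub_eq_zero.1 h)
      rw [norm_one, norm_mul] at this
      nlinarith [ha j, mem_closedBall_zero_iff.1 hw, norm_nonneg (a j), norm_nonneg w]
  obtain ⟨R, hR⟩ : ∃ R : E → ℂ → E, R = fun x w =>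
    (∏ j, (1 - a j * w))⁻¹ • ∑ k ∈ range n, w ^ k • U k x := ⟨_, rfl⟩
  have d : ∀ x, DifferentiableOn ℂ (R x) (closedBall 0 1) := fun x => hR ▸
    DifferentiableOn.smul (f := fun w => ∑ k ∈ range n, w ^ k • U k x)
      (DifferentiableOn.inv (by fun_prop) p) (by fun_prop)
  have e : ∀ x, ∀ w ∈ closedBall (0 : ℂ) 1, R x w = x + w • T (R x w) := fun x w hw => by
    have := congrArg (fun S : E →L[ℂ] E => (∏ j, (1 - a j * w))⁻¹ • S x) (hU w)
    simp only [hT, smul_zero, sub_zero, _root_.smul_apply, smul_smul,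
      inv_mul_cancel₀ (p w hw), one_smul, one_apply_eq_self, mul_apply_eq_comp, _root_.sub_apply,
      _root_.sum_apply] at this
    rw [hR]
    simp only [map_smul]
    linear_combination (norm := module) this
  have r := fun x y m => rep hD (d x) (d y) (e x) (e y) m
  have i : ∀ x y m, CircleIntegrable (fun w => conj w ^ m * ⟪D (R y w), D (R x w)⟫_ℂ) 0 1 :=
    fun x y m => by
      have c := fun x => (d x).continuousOn.mono sphere_subset_closedBall
      have := c x
      have := c y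
      exact ContinuousOn.circleIntegrable zero_le_one (by fun_prop)
  have i1 := (i x x 0).const_smul (a := (l : ℂ) ^ 2)
  have i2 := fun m => (i x y m).const_smul (a := c m)
  have i3 := (CircleIntegrable.sum (range N) fun m _ => i2 m).const_smul (a := (2 : ℂ))
  have := (reCLM : ℂ →L[ℝ] ℝ).circleAverage_comp_comm ((i1.add (i y y 0)).sub i3)
  rw [circleAverage_sub (i1.add (i y y 0)) i3, circleAverage_add i1 (i y y 0), circleAverage_smul,
    circleAverage_smul, circleAverage_sum fun m _ => i2 m] at this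
  simp only [circleAverage_smul, r] at this
  refine (circleAverage_congr_sphere fun w hw => ?_).trans (this.trans ?_)
  · have w1 : ‖w‖ = 1 := by simpa using hw
    have b : ∀ u v : F, ⟪(∏ j, (1 - a j * w))⁻¹ • u, (∏ j, (1 - a j * w))⁻¹ • v⟫_ℂ =
        ⟪u, v⟫_ℂ * (∏ j, (‖w - conj (a j)‖ ^ 2)⁻¹ : ℝ) := fun u v => by
      rw [inner_smul_left, inner_smul_right, ← mul_assoc, conj_mul', mul_comm, norm_inv, norm_prod]
      push_cast
      rw [← prod_inv_distrib, ← Finset.prod_pow]
      congr 1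
      refine prod_congr rfl fun j _ => ?_
      have : 1 - a j * w = w * conj (w - conj (a j)) := by
        rw [map_sub, conj_conj, mul_sub, mul_conj', w1]; simp [mul_comm]
      rw [this, norm_mul, norm_conj, w1, one_mul, inv_pow]
    simp only [φ, hR, Function.comp_apply, reCLM_apply, Pi.sub_apply, Pi.add_apply, Pi.smul_apply, Finset.sum_apply,
      smul_eq_mul, map_smul, map_sum, b, pow_zero, one_mul]
    rw [← re_mul_ofReal]
    congr 1
    simp only [sub_mul, add_mul, mul_assoc, sum_mul]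
  · simp [inner_self_eq_norm_sq_to_K, inner_sum, inner_smul_right, ← ofReal_pow]

end Pool.Agent.H.MP_a1a577_an
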