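import Pool.Agent.H.MP_a1a577_an.B

set_option autoImplicit false
open Real Complex Metric Set Function Polynomial Finset Filter Topology
open scoped ComplexConjugate InnerProductSpace

namespace Pool.Agent.H.MP_a1a577_an

/-- the Hilbert space -/
abbrev E (n : ℕ) := EuclideanSpace ℂ (Fin (n + 1))

variable {n : ℕ} {r : ℝ}

/-- the nilpotent shift -/
noncomputable def J0 (n : ℕ) : EuclideanSpace ℂ (Fin n) →L[ℂ] EuclideanSpace ℂ (Fin n) :=
  Matrix.toEuclideanCLM (n := Fin n) (𝕜 := ℂ) (Matrix.of fun i j => if (j : ℕ) = i + 1 then 1 else 0)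

theorem shift (n : ℕ) : J0 (n + 1) ^ (n + 1) = 0 ∧
    ∀ x y, ⟪J0 (n + 1) y, J0 (n + 1) x⟫_ℂ = ⟪y, x⟫_ℂ - conj (y 0) * x 0 := by
  have hJ : ∀ x i, J0 (n + 1) x i = if h : i.val + 1 < n + 1 then x ⟨i + 1, h⟩ else 0 := fun x i => by
    simp only [J0, Matrix.ofLp_toEuclideanCLM, Matrix.mulVec, dotProduct, Matrix.of_apply, ite_mul,
      one_mul, zero_mul]
    split_ifs with h
    · rw [sum_eq_single ⟨i + 1, h⟩ (fun j _ hj => if_neg fun e => hj (Fin.ext e)) (by simp), if_pos rfl]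
    · exact sum_eq_zero fun j _ => if_neg (by omega)
  generalize J0 (n + 1) = J at *
  have p : ∀ k x (i : Fin (n + 1)), (J ^ k) x i =
      if h : i.val + k < n + 1 then x ⟨i + k, h⟩ else 0 := fun k => by
    induction k with
    | zero => intro x i; simp [i.2]
    | succ k ih =>
      intro x i
      rw [pow_succ, mul_apply_eq_comp, ih]
      simp only [hJ]
      split_ifs <;> first | rfl | omega
  refine ⟨?_, fun x y => ?_⟩
  · ext x i
    rw [p, dif_neg (by omega)]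
    rfl
  · simp only [PiLp.inner_apply, RCLike.inner_apply]
    rw [Fin.sum_univ_castSucc, Fin.sum_univ_succ]
    simp [hJ, mul_comm, Fin.succ]

/-- the extremal operator -/
noncomputable def S0 (n : ℕ) (r : ℝ) : EuclideanSpace ℂ (Fin n) →L[ℂ] EuclideanSpace ℂ (Fin n) :=
  (J0 n + (r : ℂ) • 1) * Ring.inverse (1 + (r : ℂ) • J0 n)

theorem model (n : ℕ) (h0 : 0 < r) (h1 : r < 1) : ∃ δ : E n →L[ℂ] ℂ,
    (S0 (n + 1) r - (r : ℂ) • 1) ^ (n + 1) = 0 ∧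
    ∀ x y, ⟪δ y, δ x⟫_ℂ = ⟪y, x⟫_ℂ - ⟪S0 (n + 1) r y, S0 (n + 1) r x⟫_ℂ := by
  obtain ⟨j1, j2⟩ := shift n
  unfold S0
  generalize J0 (n + 1) = J at *
  obtain ⟨u, hu⟩ := (IsNilpotent.smul (⟨_, j1⟩ : IsNilpotent J) (r : ℂ)).isUnit_one_add
  have e : (1 + (r : ℂ) • J) * ↑u⁻¹ = 1 := by rw [← hu, Units.mul_inv]
  have c : Commute J ↑u⁻¹ := Commute.units_inv_right (by
    rw [hu]; exact (Commute.one_right J).add_right ((Commute.refl J).smul_right _))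
  rw [← hu, Ring.inverse_unit]
  generalize (↑u⁻¹ : E n →L[ℂ] E n) = N at e c
  refine ⟨((√(1 - r ^ 2) : ℝ) : ℂ) • (EuclideanSpace.proj 0).comp N, ?_, fun x y => ?_⟩
  · have : (J + (r : ℂ) • 1) * N - (r : ℂ) • 1 = (1 - (r : ℂ) ^ 2) • (J * N) := by
      simp only [add_mul, smul_mul_assoc, one_mul] at e ⊢
      linear_combination (norm := module) (r : ℂ) • e
    rw [this, _root_.smul_pow, c.mul_pow, j1, zero_mul, smul_zero]
  · have e1 : ∀ x, x = N x + (r : ℂ) • J (N x) := fun x => by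
      simpa using (congrArg (fun S : E n →L[ℂ] E n => S x) e).symm
    have s : ((√(1 - r ^ 2) : ℝ) : ℂ) * (√(1 - r ^ 2) : ℝ) = 1 - (r : ℂ) ^ 2 := by
      exact_mod_cast Real.mul_self_sqrt (by nlinarith)
    have b := congrArg₂ (inner ℂ) (e1 y) (e1 x)
    have b' := j2 (N x) (N y)
    simp only [mul_apply_eq_comp, _root_.add_apply, _root_.smul_apply, one_apply_eq_self,
      inner_add_left, inner_add_right, inner_smul_left, inner_smul_right, conj_ofReal,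
      ContinuousLinearMap.comp_apply, EuclideanSpace.coe_proj] at b ⊢
    rw [RCLike.inner_apply']
    linear_combination conj (N y 0) * N x 0 * s - b + (1 - (r : ℂ) ^ 2) * b'

theorem ci2 {φ : ℂ → ℝ} (hφ : Continuous φ) {b : Fin (n + 1) → ℂ} (hb : ∀ j, ‖b j‖ < 1) :
    CircleIntegrable (fun w => φ w * ∏ j, (‖w - b j‖ ^ 2)⁻¹) 0 1 :=
  ContinuousOn.circleIntegrable zero_le_one (hφ.continuousOn.mul (continuousOn_finsetProd _ fun j _ =>
    ContinuousOn.inv₀ (by fun_prop) fun w hw => pow_ne_zero _ (norm_ne_zero_iff.2 (sub_ne_zero.2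
      fun h => (hb j).ne (by simpa [h] using hw)))))

theorem rot {S : E n →L[ℂ] E n} (h : (S - (r : ℂ) • 1) ^ (n + 1) = 0) (ζ : ℂ) :
    aeval (ζ • S) ((X - C (ζ * r)) ^ (n + 1)) = 0 := by
  rw [map_pow, map_sub, aeval_X, aeval_C, Algebra.algebraMap_eq_smul_one,
    show ζ • S - (ζ * r) • 1 = ζ • (S - (r : ℂ) • 1) by module, _root_.smul_pow, h]
  ext x
  simp

theorem defect {A : Type} [CStarAlgebra A] [PartialOrder A] [StarOrderedRing A] {T : A}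
    (hT : ‖T‖ ≤ 1) : ∃ D : A, 1 - star T * T = star D * D :=
  CStarAlgebra.nonneg_iff_eq_star_mul_self.1 (sub_nonneg.2
    ((CStarAlgebra.norm_le_one_iff_of_nonneg (star T * T) (star_mul_self_nonneg T)).1
      (CStarRing.norm_star_mul_self.trans_le (by nlinarith [norm_nonneg T]))))

theorem defect2 {E : Type} [NormedAddCommGroup E] [InnerProductSpace ℂ E] [CompleteSpace E]
    {T : E →L[ℂ] E} (hT : ‖T‖ ≤ 1) :
    ∃ D : E →L[ℂ] E, ∀ x y, ⟪D y, D x⟫_ℂ = ⟪y, x⟫_ℂ - ⟪T y, T x⟫_ℂ := by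
  obtain ⟨D, hD⟩ := defect (A := E →L[ℂ] E) hT
  refine ⟨D, fun x y => ?_⟩
  have := congrArg (fun S : E →L[ℂ] E => ⟪y, S x⟫_ℂ) hD
  simpa [ContinuousLinearMap.star_eq_adjoint, inner_sub_right,
      ContinuousLinearMap.adjoint_inner_right] using this.symm

theorem core (h0 : 0 < r) (h1 : r < 1) {S : E n →L[ℂ] E n} {δ : E n →L[ℂ] ℂ}
    (hS : (S - (r : ℂ) • 1) ^ (n + 1) = 0) (hδ : ∀ x y, ⟪δ y, δ x⟫_ℂ = ⟪y, x⟫_ℂ - ⟪S y, S x⟫_ℂ)
    {c : ℕ → ℂ} {N : ℕ} {l : ℝ} (hl : ∀ ζ : ℂ, ‖ζ‖ = 1 → ‖∑ m ∈ range N, c m • (ζ • S) ^ m‖ ≤ l)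
    {T : E n →L[ℂ] E n} (hT : ‖T‖ ≤ 1) {a : Fin (n + 1) → ℂ} (ha : ∀ j, ‖a j‖ ≤ r)
    (hp : aeval T (∏ j, (X - C (a j))) = 0) : ‖∑ m ∈ range N, c m • T ^ m‖ ≤ l := by
  have l0 : 0 ≤ l := (norm_nonneg _).trans (hl 1 norm_one)
  have s : ∀ α β : ℕ → ℂ, 0 ≤ circleAverage (fun w => φ l c N (n + 1) α β w *
      ∏ j, (‖w - conj (a j)‖ ^ 2)⁻¹) 0 1 := fun α β => by
    refine key h0 h1 (φ_cont _ _ _ _ _ _) (fun e he => ?_) (by simpa using ha)
    obtain ⟨ζ, z1, z2⟩ : ∃ ζ : ℂ, ‖ζ‖ = 1 ∧ conj (ζ * r) = e := ⟨conj e / r, by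
      simp [he, abs_of_pos h0, h0.ne'], by simp [h0.ne']⟩
    obtain ⟨U, hU⟩ := main (T := ζ • S) (D := δ) (a := fun _ : Fin (n + 1) => ζ * r) (fun x y => by
      simp only [hδ, _root_.smul_apply, inner_smul_left, inner_smul_right, ← mul_assoc, mul_conj', z1]
      simp) (fun _ => by simpa [z1, abs_of_pos h0] using h1) (by simpa using rot hS ζ)
    simp only [z2] at hU
    obtain ⟨Λ, hΛ⟩ : ∃ Λ : E n →ₗ[ℂ] (Fin (n + 1) → ℂ), ∀ x k, Λ x k = δ (U k x) :=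
      ⟨LinearMap.pi fun k => (δ.comp (U k) : E n →L[ℂ] ℂ), fun _ _ => rfl⟩
    have e : ∀ (x : E n) (α : ℕ → ℂ), (Λ x = fun k : Fin (n + 1) => α k) → ∀ w : ℂ,
        ∑ k ∈ range (n + 1), w ^ k • δ (U k x) = ∑ k ∈ range (n + 1), w ^ k • α k := fun x α h w =>
      sum_congr rfl fun k hk => by rw [← congrFun h ⟨k, mem_range.1 hk⟩, hΛ]
    have i : Injective Λ := (injective_iff_map_eq_zero Λ).2 fun x hx => by
      have := hU 1 0 0 x 0
      simp only [φ, e x 0 hx] at this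
      simpa [circleAverage_const] using this.symm
    have su := (LinearMap.injective_iff_surjective_of_finrank_eq_finrank (by simp)).1 i
    obtain ⟨x, hx⟩ := su fun k => α k
    obtain ⟨y, hy⟩ := su fun k => β k
    have := hU l c N x y
    simp only [φ, e x α hx, e y β hy] at this
    simp only [φ]
    rw [this]
    have b := (re_le_norm _).trans ((norm_inner_le_norm (𝕜 := ℂ) y _).trans (mul_le_mul_of_nonneg_left
      ((∑ m ∈ range N, c m • (ζ • S) ^ m).le_of_opNorm_le (hl ζ z1) x) (norm_nonneg y)))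
    nlinarith [sq_nonneg (l * ‖x‖ - ‖y‖)]
  obtain ⟨D, hD⟩ := defect2 hT
  obtain ⟨U, hU⟩ := main hD (fun j => (ha j).trans_lt h1) hp
  refine ContinuousLinearMap.opNorm_le_bound _ l0 fun x => ?_
  obtain ⟨y, hy⟩ : ∃ y, y = (∑ m ∈ range N, c m • T ^ m) x := ⟨_, rfl⟩
  have := hU l c N x y
  rw [← hy] at this ⊢
  have b := sum_nonneg (s := univ) fun (i : Fin (n + 1)) _ =>
    s (fun k => D (U k x) i) fun k => D (U k y) i
  rw [← circleAverage_fun_sum fun i _ => ci2 (φ_cont _ _ _ _ _ _) fun j => by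
    simpa using (ha j).trans_lt h1] at b
  have e : ∀ w, ∑ i, φ l c N (n + 1) (fun k => D (U k x) i) (fun k => D (U k y) i) w =
      φ l c N (n + 1) (fun k => D (U k x)) (fun k => D (U k y)) w := fun w => by
    simp only [φ, PiLp.inner_apply, ← re_sum, sum_sub_distrib, sum_add_distrib, mul_sum,
      WithLp.ofLp_sum, Finset.sum_apply, PiLp.smul_apply]
    rw [sum_comm]
  simp only [← sum_mul, e] at b
  rw [this, show (⟪y, y⟫_ℂ).re = ‖y‖ ^ 2 from inner_self_eq_norm_sq (𝕜 := ℂ) y] at b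
  refine abs_le_of_sq_le_sq' ?_ (by positivity) |>.2
  nlinarith

theorem spec {T : E n →L[ℂ] E n} {p : ℂ[X]} (h : aeval T p = 0) {z : ℂ} (hz : z ∈ spectrum ℂ T) :
    p.IsRoot z := by
  have := spectrum.subset_polynomial_aeval T p ⟨z, hz, rfl⟩
  rwa [h, spectrum.zero_eq] at this

theorem sm {T : E n →L[ℂ] E n} (h : ∀ z ∈ spectrum ℂ T, ‖z‖ ≤ r) {ρ : ℝ} (h0 : 0 < r) (hρ : r < ρ)
    {c : ℕ → ℂ} (hc : Summable fun k => ‖c k‖ * ρ ^ k) : Summable fun k => ‖c k • T ^ k‖ := by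
  have : spectralRadius ℂ T < ENNReal.ofReal ρ := lt_of_le_of_lt (iSup₂_le fun z hz => by
    rw [← enorm_eq_nnnorm, ← ofReal_norm]
    exact ENNReal.ofReal_le_ofReal (h z hz)) ((ENNReal.ofReal_lt_ofReal_iff (h0.trans hρ)).2 hρ)
  refine hc.of_norm_bounded_eventually_nat ?_
  filter_upwards [(spectrum.pow_norm_pow_one_div_tendsto_nhds_spectralRadius T).eventually_lt_const
    this, eventually_gt_atTop 0] with k hk k0
  rw [norm_norm, norm_smul]
  refine mul_le_mul_of_nonneg_left ?_ (norm_nonneg _)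
  have := pow_le_pow_left₀ (by positivity) ((ENNReal.ofReal_lt_ofReal_iff (h0.trans hρ)).1 hk).le k
  rwa [one_div, Real.rpow_inv_natCast_pow (norm_nonneg _) k0.ne'] at this

theorem cayley (T : E n →L[ℂ] E n) : ∃ a : Fin (n + 1) → ℂ, (∀ j, a j ∈ spectrum ℂ T) ∧
    aeval T (∏ j, (X - C (a j))) = 0 := by
  obtain ⟨f, rfl⟩ := (Module.End.toContinuousLinearMap (𝕜 := ℂ) (E n)).surjective T
  have c : f.charpoly.roots.toList.length = n + 1 := by
    rw [Multiset.length_toList, IsAlgClosed.card_roots_eq_natDegree, LinearMap.charpoly_natDegree]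
    simp
  obtain ⟨a, ha⟩ : ∃ a : Fin (n + 1) → ℂ, f.charpoly.roots = univ.val.map a :=
    ⟨fun j => f.charpoly.roots.toList.get (j.cast c.symm), by
      rw [Fin.univ_val_map, ← List.ofFn_congr c, List.ofFn_get, Multiset.coe_toList]⟩
  refine ⟨a, fun j => ?_, ?_⟩
  · rw [AlgEquiv.spectrum_eq, Module.End.mem_spectrum_iff_isRoot_charpoly]
    exact isRoot_of_mem_roots (ha ▸ Multiset.mem_map_of_mem _ (mem_univ j))
  · have := (IsAlgClosed.splits f.charpoly).eq_prod_roots_of_monic f.charpoly_monic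
    rw [ha, Multiset.map_map, prod_map_val] at this
    rw [show ∏ j, (X - C (a j)) = f.charpoly from this.symm, aeval_algHom_apply,
      LinearMap.aeval_self_charpoly, map_zero]

theorem contr {S : E n →L[ℂ] E n} {δ : E n →L[ℂ] ℂ}
    (hδ : ∀ x y, ⟪δ y, δ x⟫_ℂ = ⟪y, x⟫_ℂ - ⟪S y, S x⟫_ℂ) : ‖S‖ ≤ 1 := by
  refine ContinuousLinearMap.opNorm_le_bound _ zero_le_one fun x => ?_
  have := hδ x x
  simp only [inner_self_eq_norm_sq_to_K] at this
  norm_cast at this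
  exact (abs_le_of_sq_le_sq' (by nlinarith [sq_nonneg ‖δ x‖]) (by positivity)).2

theorem final (n : ℕ) (h0 : 0 < r) (h1 : r < 1) {ρ : ℝ} (hρ : r < ρ) {c : ℕ → ℂ}
    (hc : Summable fun k => ‖c k‖ * ρ ^ k) : ∃ ζ : ℂ, ‖ζ‖ = 1 ∧ ‖ζ • S0 (n + 1) r‖ ≤ 1 ∧
    aeval (ζ • S0 (n + 1) r) ((X - C (ζ * r)) ^ (n + 1)) = 0 ∧ ∀ T : E n →L[ℂ] E n, ‖T‖ ≤ 1 →
    (∀ z ∈ spectrum ℂ T, ‖z‖ ≤ r) → ‖∑' k, c k • T ^ k‖ ≤ ‖∑' k, c k • (ζ • S0 (n + 1) r) ^ k‖ := by
  obtain ⟨δ, hS, hδ⟩ := model n h0 h1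
  generalize S0 (n + 1) r = S at *
  have s1 := sm (T := S) (fun z hz => by
    have := spec (rot hS 1) (by simpa using hz)
    simp only [IsRoot, eval_pow, eval_sub, eval_X, eval_C, one_mul] at this
    simp [sub_eq_zero.1 (pow_eq_zero_iff (Nat.succ_ne_zero n) |>.1 this), abs_of_pos h0]) h0 hρ hc
  have e : ∀ ζ ∈ sphere (0 : ℂ) 1, ∀ k, ‖c k • (ζ • S) ^ k‖ = ‖c k • S ^ k‖ := fun ζ hζ k => by
    simp [_root_.smul_pow, norm_smul, show ‖ζ‖ = 1 by simpa using hζ]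
  obtain ⟨ζ, hζ, m⟩ := (isCompact_sphere (0 : ℂ) 1).exists_isMaxOn ⟨1, by simp⟩
    (continuousOn_tsum (f := fun k (ζ : ℂ) => c k • (ζ • S) ^ k) (fun k => by fun_prop) s1
      fun k ζ hζ => (e ζ hζ k).le).norm
  have z1 : ‖ζ‖ = 1 := by simpa using hζ
  refine ⟨ζ, z1, by rw [norm_smul, z1, one_mul]; exact contr hδ, rot hS ζ, fun T hT hs => ?_⟩
  obtain ⟨a, a1, a2⟩ := cayley T
  refine le_of_tendsto_of_tendsto' (sm hs h0 hρ hc).of_norm.hasSum.tendsto_sum_nat.norm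
    (by simpa using (tendsto_sum_nat_add fun k => ‖c k • S ^ k‖).const_add ‖∑' k, c k • (ζ • S) ^ k‖)
    fun N => core h0 h1 hS hδ (fun η hη => ?_) hT (fun j => hs _ (a1 j)) a2
  have η1 : η ∈ sphere (0 : ℂ) 1 := by simpa using hη
  have s2 : Summable fun k => c k • (η • S) ^ k := .of_norm (by simpa only [e η η1] using s1)
  rw [eq_sub_of_add_eq (s2.sum_add_tsum_nat_add N)]
  refine (norm_sub_le _ _).trans (add_le_add (isMaxOn_iff.1 m η η1) ?_)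
  exact tsum_of_norm_bounded ((summable_nat_add_iff N).2 s1).hasSum fun k => (e η η1 _).le

theorem power (n : ℕ) (h0 : 0 < r) (h1 : r < 1) (m : ℕ) {T : E n →L[ℂ] E n} (hT : ‖T‖ ≤ 1)
    (hs : ∀ z ∈ spectrum ℂ T, ‖z‖ ≤ r) : ‖T ^ m‖ ≤ ‖S0 (n + 1) r ^ m‖ := by
  obtain ⟨δ, hS, hδ⟩ := model n h0 h1
  obtain ⟨a, a1, a2⟩ := cayley T
  have e : ∀ U : E n →L[ℂ] E n, ∑ k ∈ range (m + 1), (Pi.single m 1 : ℕ → ℂ) k • U ^ k = U ^ m :=
    fun U => by rw [sum_eq_single m (fun k _ h => by ext; simp [h]) (by simp)]; simp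
  rw [← e T]
  refine core h0 h1 hS hδ (fun η hη => ?_) hT (fun j => hs _ (a1 j)) a2
  rw [e]
  simp [_root_.smul_pow, norm_smul, hη]

theorem taylor {f : ℂ → ℂ} {R ρ : ℝ} (hf : DifferentiableOn ℂ f (ball 0 R)) (h0 : 0 < ρ)
    (h : ρ < R) : Summable fun k => ‖iteratedDeriv k f 0 / (k.factorial : ℂ)‖ * ρ ^ k := by
  have := (hasSum_taylorSeries_on_ball hf (z := ρ) (by simpa [abs_of_pos h0])).summable.norm
  refine this.congr fun k => ?_
  simp [abs_of_pos h0]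
  ring

end Pool.Agent.H.MP_a1a577_an
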